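import Mathlib
import Pool.Agent.V11299.Cyc.Main4

set_option autoImplicit false

open Filter Topology

namespace Pool.Agent.Results.MP_dca572_nt.CyclicPairs

/-- `m` is a cyclic number: `gcd(m, φ(m)) = 1` (note `gcd(0, φ(0)) = 0`). -/
def IsCyclicNumber (m : ℕ) : Prop := Nat.gcd m (Nat.totient m) = 1

/-- `c j` is the cyclic number number `j + 1` in increasing order: `c 0 = 1`, `c 1 = 2`, ... -/
noncomputable def c (j : ℕ) : ℕ := Nat.nth IsCyclicNumber j

/-- `T g n`: the number of `j` with `n³ < c_j < c_{j+1} < (n+1)³` and `c_{j+1} - c_j = g`. -/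
noncomputable def T (g n : ℕ) : ℕ :=
  Set.ncard {j : ℕ | n ^ 3 < c j ∧ c (j + 1) < (n + 1) ^ 3 ∧ c (j + 1) = c j + g}

/-- A sequence `f` (on the integers `n ≥ 1`) is positive and regularly varying with index `ρ`. -/
def RegularlyVarying (f : ℕ → ℝ) (ρ : ℝ) : Prop :=
  (∀ n : ℕ, 1 ≤ n → 0 < f n) ∧
    ∀ t : ℝ, 0 < t → Tendsto (fun n : ℕ => f ⌊t * (n : ℝ)⌋₊ / f n) atTop (𝓝 (t ^ ρ))

/-- `f g n = 3 n² ∏_{p ≤ log log n} (1 - ν_g(p)/p)`, `ν_g(p) = 1` if `p ∣ g` and `2` otherwise. -/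
noncomputable def f (g n : ℕ) : ℝ :=
  3 * (n : ℝ) ^ 2 * ∏ p ∈ (Finset.Icc 1 ⌊Real.log (Real.log n)⌋₊).filter Nat.Prime,
    (1 - (if p ∣ g then (1 : ℝ) else 2) / p)

/-- For `g = 2, 4, 6` the number of pairs of consecutive cyclic numbers in `(n³, (n+1)³)` with
difference `g` is asymptotic to `f g n`, which is regularly varying with index `2`. -/
theorem result : ∀ g ∈ ({2, 4, 6} : Finset ℕ), RegularlyVarying (f g) 2 ∧
    Tendsto (fun n : ℕ => (T g n : ℝ) / f g n) atTop (𝓝 1) := by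
  intro g hg
  simp only [Finset.mem_insert, Finset.mem_singleton] at hg
  have h2 : 2 ∣ g := by omega
  have h0 : 0 < g := by omega
  have h6 : g ≤ 6 := by omega
  have hf : f g = V11299.Cyc.ff g := by
    funext n
    unfold f V11299.Cyc.ff
    rw [V11299.Cyc.dens_explicit]
    rfl
  have hT : ∀ n, T g n = (V11299.Cyc.TT g n).card := fun n => V11299.Cyc.TT_card h0
  refine ⟨⟨?_, ?_⟩, ?_⟩
  · intro n hn
    rw [hf]
    exact V11299.Cyc.ff_pos h2 hn
  · intro t ht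
    rw [hf]
    exact V11299.Cyc.ff_reg h2 ht
  · rw [hf]
    simp only [hT]
    exact V11299.Cyc.main_asymp h2 h0 h6

end Pool.Agent.Results.MP_dca572_nt.CyclicPairs
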